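import Mathlib

/-!
# Sums of `C(-1/3,k) C(-1/6,k) / (-1024)^k` modulo `p^2`: failure at `p = 41`

`4 * 41 = 41 * 2^2 + 3 * 0^2` is a representation `4 p = 41 x^2 + 3 y^2` for `p = 41`.
-/

set_option autoImplicit false

open Finset

namespace Pool.Agent.Results.MP_2a5e5c_nt.FailsAt41

/-- The generalized binomial coefficient `a (a-1) ⋯ (a-k+1) / k!`. -/
def binom (a : ℚ) (k : ℕ) : ℚ := (∏ i ∈ range k, (a - i)) / (k.factorial : ℚ)

/-- `S_1(p)`. -/
def S1 (p : ℕ) : ℚ := ∑ k ∈ range p, binom (-1 / 3) k * binom (-1 / 6) k / (-1024) ^ k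

/-- `S_2(p)`. -/
def S2 (p : ℕ) : ℚ := ∑ k ∈ range p, binom (-2 / 3) k * binom (-5 / 6) k / (-1024) ^ k

/-- Congruence of rational numbers modulo `p^m`: the difference is `p^m` times a rational number
whose denominator is prime to `p`. -/
def Congr (p m : ℕ) (a b : ℚ) : Prop := ∃ c : ℚ, ¬ p ∣ c.den ∧ a - b = (p : ℚ) ^ m * c

/-- `e_p = (1 - (p/3))/2` -/
def e (p : ℕ) : ℕ := ((1 - jacobiSym p 3) / 2).toNat

/-- `c_p = (41/p) (1025/1024)^{e_p}` -/
def c (p : ℕ) : ℚ := (jacobiSym 41 p : ℚ) * (1025 / 1024) ^ e p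

/-- `c_p S_2(p)` -/
def M (p : ℕ) : ℚ := c p * S2 p

/-- The right hand side in part (a). -/
def R1 (p : ℕ) (x : ℤ) : ℚ := -(jacobiSym x 3 : ℚ) * (x - p / x)

/-- The right hand side in part (b). -/
def R2 (p : ℕ) (x : ℤ) : ℚ := 5 / 32 * (jacobiSym x 3 : ℚ) * (41 * x - p / x)

/-- Part (a) for the prime `p`. -/
def PartA (p : ℕ) : Prop := ∀ x y : ℤ, 4 * (p : ℤ) = x ^ 2 + 123 * y ^ 2 →
    Congr p 2 (S1 p) (M p) ∧ Congr p 2 (M p) (R1 p x)

/-- The two congruences modulo `p^2` of part (b) for the prime `p`. -/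
def PartB (p : ℕ) : Prop := ∀ x y : ℤ, 4 * (p : ℤ) = 41 * x ^ 2 + 3 * y ^ 2 →
    Congr p 2 (S1 p) (M p) ∧ Congr p 2 (M p) (R2 p x)

/-- Part (c) for the prime `p`. -/
def PartC (p : ℕ) : Prop := jacobiSym p 3 = 1 → jacobiSym p 41 = -1 →
    Congr p 1 (S1 p) (M p) ∧ Congr p 1 (M p) 0

theorem not_congr (p m : ℕ) (hp : p.Prime) (a b : ℚ) (D N : ℤ) (h : (D : ℚ) * (a - b) = N)
    (hN : ¬ (p : ℤ) ^ m ∣ N) : ¬ Congr p m a b := by
  rintro ⟨c, hc, hab⟩
  apply hN
  rw [hab] at h
  have h1 : (N : ℚ) * c.den = (D : ℚ) * (p : ℚ) ^ m * c.num := by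
    rw [← h]
    have h2 : c * c.den = c.num := Rat.mul_den_eq_num c
    calc (D : ℚ) * ((p : ℚ) ^ m * c) * c.den = (D : ℚ) * (p : ℚ) ^ m * (c * c.den) := by ring
      _ = _ := by rw [h2]
  have h3 : N * (c.den : ℤ) = D * (p : ℤ) ^ m * c.num := by exact_mod_cast h1
  have h4 : (p : ℤ) ^ m ∣ N * (c.den : ℤ) := by
    rw [h3]; exact ⟨D * c.num, by ring⟩
  have h5 : IsCoprime ((p : ℤ) ^ m) (c.den : ℤ) := by
    apply IsCoprime.pow_left
    rw [Nat.isCoprime_iff_coprime]
    exact (hp.coprime_iff_not_dvd).2 hc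
  exact h5.dvd_of_dvd_mul_right h4

set_option exponentiation.threshold 100000 in
theorem S1_val : S1 41 = 4328325665338137395676781371179894046381386329424121918271750889251431643087394968687449779229265147605464445949210364623173636403359158707906124154422327957675739448608708184276807576705069487238535 /
    4328560415633319482768335967046668038553596699294477189083050211024085313511093581476445277996417123035965646926920141220552206002786825158789817579819708407090463661596340555255633739017495622189056 := by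
  decide +kernel

theorem M_val : M 41 = 0 := by
  have h : jacobiSym 41 41 = 0 := by
    rw [jacobiSym.eq_zero_iff_not_coprime]
    decide
  unfold M c
  rw [h]
  simp

theorem R2_val : R2 41 2 = -615 / 64 := by
  unfold R2
  have h : jacobiSym 2 3 = -1 := by norm_num
  rw [h]
  norm_num

theorem fails_M : ¬ Congr 41 2 (S1 41) (M 41) := by
  refine not_congr 41 2 (by norm_num) _ _ 4328560415633319482768335967046668038553596699294477189083050211024085313511093581476445277996417123035965646926920141220552206002786825158789817579819708407090463661596340555255633739017495622189056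
    4328325665338137395676781371179894046381386329424121918271750889251431643087394968687449779229265147605464445949210364623173636403359158707906124154422327957675739448608708184276807576705069487238535 ?_ (by norm_num)
  rw [S1_val, M_val]
  norm_num

theorem fails_R : ¬ Congr 41 2 (S1 41) (R2 41 2) := by
  refine not_congr 41 2 (by norm_num) _ _ 4328560415633319482768335967046668038553596699294477189083050211024085313511093581476445277996417123035965646926920141220552206002786825158789817579819708407090463661596340555255633739017495622189056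
    45923085909314566800403759804518969729357354611706988657116686510811001452608059853187666122476085939279196834387583596664417490961388806718152027460502338432060663696761043207436413037576316481711495 ?_ (by norm_num)
  rw [S1_val, R2_val]
  norm_num

/-- For `p = 41`, with `4 p = 41 * 2 ^ 2 + 3 * 0 ^ 2`, the sum `S_1(41)` is congruent modulo `41 ^ 2`
neither to `c_p S_2(p)` nor to `(5/32) (x/3) (41 x - p/x)`; so part (b) of Q1 fails for
the prime `41`, and the assertion of Q1 is false. -/
theorem result : (4 * ((41 : ℕ) : ℤ) = 41 * 2 ^ 2 + 3 * 0 ^ 2 ∧ ¬ Congr 41 2 (S1 41) (M 41) ∧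
    ¬ Congr 41 2 (S1 41) (R2 41 2)) ∧ ¬ PartB 41 ∧
    ¬ ∀ p : ℕ, p.Prime → 3 < p → PartA p ∧ PartB p ∧ PartC p := by
  have h0 : ¬ PartB 41 := fun h => fails_M (h 2 0 (by norm_num)).1
  exact ⟨⟨by norm_num, fails_M, fails_R⟩, h0, fun h => h0 (h 41 (by norm_num) (by norm_num)).2.1⟩

end Pool.Agent.Results.MP_2a5e5c_nt.FailsAt41
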